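import Pool.Agent.H.MP_0cad2f_co.helper47.Defs

/-!
Moving one generator of a simplicial cone by a rank one linear map.
-/

set_option autoImplicit false

namespace Pool.Agent.H.MP_0cad2f_co.helper52

open MeasureTheory ProbabilityTheory Matrix Finset
open Pool.Agent.H.MP_0cad2f_co.helper47
open scoped NNReal ENNReal

variable {n d : ℕ}

/-- The rank one perturbation of the identity `w ↦ w + ⟨ν, w⟩ z`. -/
noncomputable def shear (ν z : Fin d → ℝ) : (Fin d → ℝ) →ₗ[ℝ] (Fin d → ℝ) :=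
  Matrix.toLin' (1 + Matrix.replicateCol (Fin 1) z * Matrix.replicateRow (Fin 1) ν)

theorem shear_apply (ν z w : Fin d → ℝ) : shear ν z w = w + (ν ⬝ᵥ w) • z := by
  rw [shear, Matrix.toLin'_apply, Matrix.add_mulVec, Matrix.one_mulVec]
  congr 1
  ext j
  rw [← Matrix.mulVec_mulVec, Pi.smul_apply, smul_eq_mul]
  simp only [Matrix.mulVec, Matrix.replicateCol, Matrix.replicateRow, Matrix.of_apply, dotProduct,
    Finset.univ_unique, Finset.sum_singleton]
  ring

theorem det_shear (ν z : Fin d → ℝ) : LinearMap.det (shear ν z) = 1 + ν ⬝ᵥ z := by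
  rw [shear, LinearMap.det_toLin']
  exact Matrix.det_one_add_replicateCol_mul_replicateRow (ι := Fin 1) z ν

theorem nu_update_shear {a : Fin n → Fin d → ℝ} {B : Idx n d} (k₀ : Fin d) (z : Fin d → ℝ)
    (hdet : (mat a B).det ≠ 0)
    (hdet' : (mat (Function.update a (B k₀) (a (B k₀) + z)) B).det ≠ 0) (w : Fin d → ℝ)
    (k : Fin d) :
    nu (Function.update a (B k₀) (a (B k₀) + z)) B k ⬝ᵥ shear (nu a B k₀) z w =
      nu a B k ⬝ᵥ w := by
  have h1 : shear (nu a B k₀) z w =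
      ∑ l, (nu a B l ⬝ᵥ w) • (Function.update a (B k₀) (a (B k₀) + z)) (B l) := by
    rw [shear_apply]
    have h2 : ∀ l, (nu a B l ⬝ᵥ w) • (Function.update a (B k₀) (a (B k₀) + z)) (B l) =
        (nu a B l ⬝ᵥ w) • a (B l) + (if l = k₀ then (nu a B k₀ ⬝ᵥ w) • z else 0) := by
      intro l
      by_cases hl : l = k₀
      · subst hl
        rw [Function.update_self, if_pos rfl, smul_add]
      · rw [Function.update_of_ne (fun h => hl (B.injective h)), if_neg hl, add_zero]
    rw [Finset.sum_congr rfl fun l _ => h2 l, Finset.sum_add_distrib, sum_nu_smul hdet]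
    simp
  rw [h1, dotProduct_sum]
  have h3 : ∀ l, nu (Function.update a (B k₀) (a (B k₀) + z)) B k ⬝ᵥ
      ((nu a B l ⬝ᵥ w) • (Function.update a (B k₀) (a (B k₀) + z)) (B l)) =
      if l = k then nu a B k ⬝ᵥ w else 0 := by
    intro l
    rw [dotProduct_smul, dotProduct_comm (nu (Function.update a (B k₀) (a (B k₀) + z)) B k),
      dot_nu hdet' l k, smul_eq_mul]
    by_cases hl : l = k
    · subst hl
      simp
    · simp [hl]
  rw [Finset.sum_congr rfl fun l _ => h3 l]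
  simp

/-- Moving one generator of a cone. -/
theorem cone_volume {a : Fin n → Fin d → ℝ} {B : Idx n d} (k₀ : Fin d) (z : Fin d → ℝ)
    (hdet : (mat a B).det ≠ 0)
    (hdet' : (mat (Function.update a (B k₀) (a (B k₀) + z)) B).det ≠ 0)
    {p : Fin d → ℝ} {R : ℝ}
    (hz : ∀ X : Fin d → ℝ, ‖X‖ ≤ R → InCone a B (X + p) → (nu a B k₀ ⬝ᵥ (X + p)) * ‖z‖ ≤ 1) :
    ENNReal.ofReal |nu a B k₀ ⬝ᵥ (a (B k₀) + z)| *
        volume {X : Fin d → ℝ | ‖X‖ ≤ R ∧ InCone a B (X + p)} ≤
      volume {X : Fin d → ℝ | ‖X‖ ≤ R + 1 ∧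
        InCone (Function.update a (B k₀) (a (B k₀) + z)) B (X + p)} := by
  have hd : nu a B k₀ ⬝ᵥ (a (B k₀) + z) = LinearMap.det (shear (nu a B k₀) z) := by
    rw [det_shear, dotProduct_add, dotProduct_comm, dot_nu_self hdet]
  rw [hd, ← Measure.addHaar_image_linearMap,
    ← measure_preimage_add_right volume (-((nu a B k₀ ⬝ᵥ p) • z))]
  refine measure_mono ?_
  intro Y hY
  obtain ⟨X, ⟨hX, hc⟩, hXY⟩ := hY
  have hY' : Y = X + (nu a B k₀ ⬝ᵥ (X + p)) • z := by
    have : Y = shear (nu a B k₀) z X + (nu a B k₀ ⬝ᵥ p) • z := by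
      rw [hXY]
      change Y = Y + -((nu a B k₀ ⬝ᵥ p) • z) + (nu a B k₀ ⬝ᵥ p) • z
      rw [neg_add_cancel_right]
    rw [this, shear_apply, dotProduct_add, add_smul]
    abel
  refine ⟨?_, ?_⟩
  · rw [hY']
    refine (norm_add_le _ _).trans (add_le_add hX ?_)
    rw [norm_smul, Real.norm_eq_abs, abs_of_nonneg (hc k₀)]
    exact hz X hX hc
  · intro k
    have hYp : Y + p = shear (nu a B k₀) z (X + p) := by
      rw [hY', shear_apply]
      abel
    rw [hYp, nu_update_shear k₀ z hdet hdet']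
    exact hc k

end Pool.Agent.H.MP_0cad2f_co.helper52
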