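import Pool.Agent.H.MP_0cad2f_co.helper11.Gauss
import Pool.Agent.H.MP_0cad2f_co.helper39.Average
import Pool.Agent.H.MP_0cad2f_co.helper40.Wedge
import Pool.Agent.H.MP_0cad2f_co.helper94.Span

/-!
Ill-conditioned feasible bases are rare.
-/

set_option autoImplicit false

namespace Pool.Agent.H.MP_0cad2f_co.helper52

open MeasureTheory ProbabilityTheory Matrix Finset
open Pool.Agent.H.MP_0cad2f_co.helper47
open scoped NNReal ENNReal

variable {n d : ℕ}

theorem measurable_update_fix (a : Fin n → Fin d → ℝ) (f : Fin n) :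
    Measurable fun x : Fin d → ℝ => Function.update a f x :=
  measurable_update a

/-- The law of the array, one constraint being resampled. -/
theorem noise_eq_update (c : Fin n → Fin d → ℝ) (σ : ℝ) (f : Fin n)
    {S : Set (Fin n → Fin d → ℝ)} (hS : MeasurableSet S) :
    noise c σ S = ∫⁻ a, gau (c f) σ {x | Function.update a f x ∈ S} ∂(noise c σ) := by
  have h1 := helper11.TD.noise_update c σ f
    (F := S.indicator (fun _ => (1 : ℝ≥0∞))) (measurable_const.indicator hS)
  rw [lintegral_indicator hS, setLIntegral_const, one_mul] at h1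
  rw [h1]
  refine lintegral_congr fun a => ?_
  have h2 : (fun x : Fin d → ℝ =>
      S.indicator (fun _ => (1 : ℝ≥0∞)) (Function.update a f x)) =
      ({x | Function.update a f x ∈ S} : Set (Fin d → ℝ)).indicator (fun _ => (1 : ℝ≥0∞)) := by
    funext x
    by_cases hx : Function.update a f x ∈ S
    · rw [Set.indicator_of_mem hx, Set.indicator_of_mem (by exact hx)]
    · rw [Set.indicator_of_notMem hx, Set.indicator_of_notMem (by exact hx)]
  have h3 : MeasurableSet {x : Fin d → ℝ | Function.update a f x ∈ S} :=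
    measurable_update_fix a f hS
  rw [h2]
  exact (lintegral_indicator_const h3 1).trans (one_mul _)

/-- (8d) Ill-conditioned bases are rare. -/
theorem nu_bound (c : Fin n → Fin d → ℝ) {σ Rg ρ A T : ℝ} (hσ : 0 < σ) (hσ1 : σ ≤ 1)
    (hd : 2 ≤ d) (hR : 0 ≤ Rg) (hρ : 0 ≤ ρ) (hA : ∀ i, n2 (c i) + Rg ≤ A)
    (hT : 4 * (1 + A * ρ) * (Rg + 1) ≤ σ ^ 2 * T) (I : Idx n d) (k : Fin d) :
    noise c σ {a | (∀ i, n2 (a i - c i) ≤ Rg) ∧ Good a I ∧ n2 (vtx a I) ≤ ρ ∧
        T < n2 (nu a I k)} ≤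
      ENNReal.ofReal (12 * (1 + A * ρ) * (Rg + 1) / (σ ^ 2 * T)) *
        noise c σ {a | Good a I} := by
  have hA0 : 0 ≤ A := by
    have := hA (I k)
    linarith [n2_nonneg (c (I k))]
  have hAρ : 0 ≤ A * ρ := mul_nonneg hA0 hρ
  have hK : 0 < (1 + A * ρ) * (Rg + 1) := by positivity
  have hσ2 : 0 < σ ^ 2 := by positivity
  have hT0 : 0 < T := by
    by_contra h
    have : σ ^ 2 * T ≤ 0 := mul_nonpos_of_nonneg_of_nonpos hσ2.le (not_lt.mp h)
    nlinarith
  have hmeasS : MeasurableSet {a : Fin n → Fin d → ℝ | (∀ i, n2 (a i - c i) ≤ Rg) ∧ Good a I ∧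
      n2 (vtx a I) ≤ ρ ∧ T < n2 (nu a I k)} := by
    refine MeasurableSet.inter ?_ (MeasurableSet.inter (helper11.TD.measurableSet_good I)
      (MeasurableSet.inter ?_ ?_))
    · change MeasurableSet {a : Fin n → Fin d → ℝ | ∀ i, n2 (a i - c i) ≤ Rg}
      rw [Set.ofPred_forall]
      exact MeasurableSet.iInter fun i => measurableSet_le
        (helper94.measurable_n2.comp ((measurable_pi_apply i).sub_const _)) measurable_const
    · exact measurableSet_le (helper94.measurable_n2.comp (helper11.TD.measurable_vtx I))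
        measurable_const
    · exact measurableSet_lt measurable_const
        (helper94.measurable_n2.comp (helper11.TD.measurable_nu I k))
  rw [noise_eq_update c σ (I k) hmeasS, noise_eq_update c σ (I k)
    (helper11.TD.measurableSet_good I), ← lintegral_const_mul']
  swap
  · exact ENNReal.ofReal_ne_top
  refine lintegral_mono fun a => ?_
  by_cases hne : ∀ x : Fin d → ℝ, Function.update a (I k) x ∉
      {a : Fin n → Fin d → ℝ | (∀ i, n2 (a i - c i) ≤ Rg) ∧ Good a I ∧
      n2 (vtx a I) ≤ ρ ∧ T < n2 (nu a I k)}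
  · have h0 : {x : Fin d → ℝ | Function.update a (I k) x ∈
      {a : Fin n → Fin d → ℝ | (∀ i, n2 (a i - c i) ≤ Rg) ∧ Good a I ∧
      n2 (vtx a I) ≤ ρ ∧ T < n2 (nu a I k)}} = ∅ :=
      Set.eq_empty_iff_forall_notMem.mpr hne
    rw [h0, measure_empty]
    exact zero_le
  push Not at hne
  obtain ⟨x₀, hx₀, -⟩ := hne
  have ha : ∀ i, i ≠ I k → n2 (a i) ≤ A := by
    intro i hi
    have h1 := hx₀ i
    rw [Function.update_of_ne hi] at h1
    have h2 : a i = (a i - c i) + c i := by abel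
    rw [h2]
    linarith [n2_add_le (a i - c i) (c i), hA i]
  obtain ⟨u, v, hu, hv, huv, hw⟩ := helper40.wedge a I k hd hρ hA0 ha 0
  have hη : 12 * (1 + A * ρ) * (Rg + 1) / (σ ^ 2 * T) =
      6 * (1 / T) / (σ ^ 2 / (2 * ((1 + A * ρ) * (Rg + 1)))) := by
    field_simp
    ring
  rw [hη]
  refine helper39.gau_average (c (I k)) v (t₁ := 2 / T) (φ := fun x => u ⬝ᵥ x) hσ hσ1 hR (by positivity)
    (by positivity) ?_ (measurable_update_fix a (I k) (helper11.TD.measurableSet_good I)) ?_ ?_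
  · have h1 : 2 / T * ((1 + A * ρ) * (Rg + 1)) ≤ σ ^ 2 / 2 := by
      rw [div_mul_eq_mul_div, div_le_div_iff₀ hT0 two_pos]
      linarith
    have h2 : σ ^ 2 / (2 * ((1 + A * ρ) * (Rg + 1))) * ((1 + A * ρ) * (Rg + 1)) = σ ^ 2 / 2 := by
      field_simp
    have h3 : (2 / T + σ ^ 2 / (2 * ((1 + A * ρ) * (Rg + 1)))) * n2 v * (Rg + 1) ≤
        (2 / T + σ ^ 2 / (2 * ((1 + A * ρ) * (Rg + 1)))) * (1 + A * ρ) * (Rg + 1) := by
      gcongr
    refine h3.trans ?_
    rw [mul_assoc, add_mul, h2]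
    linarith
  · simp only [dotProduct]
    exact Finset.measurable_fun_sum _ fun j _ => (measurable_pi_apply j).const_mul _
  · rintro x ⟨hx1, hx2, hx3, hx4⟩
    obtain ⟨h1, h2, h3⟩ := hw x hx2 hx3 (by rw [zero_dotProduct]; exact zero_le_one)
    have h4 : |u ⬝ᵥ x| ≤ 1 / T := by
      rw [h2, n2_smul, hu, mul_one, abs_inv] at hx4
      rw [le_div_iff₀ hT0]
      have h5 : 0 < |u ⬝ᵥ x| := abs_pos.mpr h1
      have h6 := mul_lt_mul_of_pos_left hx4 h5
      rw [mul_inv_cancel₀ h5.ne'] at h6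
      exact h6.le
    refine ⟨?_, fun t ht => ⟨?_, ?_⟩⟩
    · have := hx1 (I k)
      rwa [Function.update_self] at this
    · have ht0 : 0 ≤ t := le_trans (by positivity) ht.1
      refine (h3 t ht0 ?_).1
      have h5 : 2 * |u ⬝ᵥ x| ≤ 2 / T := by
        have : 2 / T = 2 * (1 / T) := by ring
        rw [this]
        linarith
      exact h5.trans ht.1
    · have h5 : u ⬝ᵥ (x + t • v) - t = u ⬝ᵥ x := by
        rw [dotProduct_add, dotProduct_smul, huv, smul_eq_mul]
        ring
      change |u ⬝ᵥ (x + t • v) - t| ≤ 1 / T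
      rw [h5]
      exact h4

end Pool.Agent.H.MP_0cad2f_co.helper52
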